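import Pool.Agent.helper61.CSW.W.SpecW

/-!
# csw: NUS: a vector field which vanishes at the singular values is zero (helper77)
-/

set_option autoImplicit false

open Complex Metric Set Filter Topology MeasureTheory
open YPPS (fd fdd pre TT CV IsCyc rho Exact)
open MPS (BB)
open Pool.Agent.helper98.ILF (juliaSet fatouSet)

noncomputable section

open CSS (SE SV JJ)

namespace YW

theorem NUS (hVFS : VFS_stmt) (hEQS : EQS_stmt) (hKXP : KXP_stmt) (hATS : ATS_stmt) (hDEN : EXQ.DEN_stmt) : NUS_stmt := by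
  intro f X μ hμ hv
  obtain ⟨hint, ⟨C, hC⟩, -, -⟩ := hKXP f X
  obtain ⟨hcont, hgr, -, -, P₀, P₁, hP⟩ := hC μ hμ.meas hμ.bd
  have hFM := hATS.2 f μ hμ ∅
  have hinv : ∀ a, VX X μ (f.eval a) = fd f a * VX X μ a := by
    intro a
    by_cases h0 : fd f a = 0
    · have h1 : f.eval a ∈ SV f := by
        have h2 : f.eval a ∈ CSS.sing f.f := Or.inl ⟨a, h0, rfl⟩
        exact f.fin.mem_toFinset.2 h2
      rw [hv _ h1, h0, zero_mul]
    · obtain ⟨σ, hσ⟩ := hVFS f X a
      have h1 := hσ ∅ μ (fun _ => 0) hFM (by simp) (by simp)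
      have h2 : ∑ v ∈ SV f, σ v * VX X μ v = 0 :=
        Finset.sum_eq_zero fun v hv' => by rw [hv v hv', mul_zero]
      rw [h2, add_zero, sub_zero] at h1
      rw [h1, ← mul_assoc, mul_one_div_cancel h0, one_mul]
  have hJ := hEQS f (VX X μ) C hcont hgr hinv
  have hcl : IsClosed (JJ f) := isOpen_interior.isClosed_compl
  exact hDEN μ (JJ f) P₀ P₁ hμ.meas hμ.bd hcl hμ.supp
    (fun a ha => by rw [← hP a]; exact hJ a ha)

end YW
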